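import Mathlib

set_option autoImplicit false

open Polynomial Filter

namespace Pool.Agent.Results.MP_8c22a7_lc.PolynomialLanguage

variable {A : Type} [Fintype A] [LinearOrder A]

/-- The genealogical (radix) order on words: shorter words come first, words of equal length are
compared lexicographically. -/
def Gen (v w : List A) : Prop :=
  v.length < w.length ∨ (v.length = w.length ∧ List.Lex (· < ·) v w)

/-- `rep` enumerates the words of the language `L` in genealogical order: `rep n` is the
`(n+1)`-st word of `L`. -/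
structure IsRep (L : Language A) (rep : ℕ → List A) : Prop where
  mem : ∀ n, rep n ∈ L
  surj : ∀ w ∈ L, ∃ n, rep n = w
  mono : ∀ m n, m < n → Gen (rep m) (rep n)

/-- The set `P(ℕ)`. -/
def values (P : ℚ[X]) : Set ℕ := {m | ∃ n : ℕ, P.eval (n : ℚ) = (m : ℚ)}

/-! ### order -/

omit [Fintype A] in
theorem lex_irrefl (w : List A) : ¬ List.Lex (· < ·) w w := fun h => Std.Asymm.asymm _ _ h h

omit [Fintype A] in
theorem gen_irrefl (w : List A) : ¬ Gen w w := by
  rintro (h | ⟨_, h⟩)
  · exact lt_irrefl _ h
  · exact lex_irrefl w h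

omit [Fintype A] in
theorem gen_asymm {v w : List A} (h : Gen v w) (h' : Gen w v) : False := by
  rcases h with h | ⟨h, hl⟩ <;> rcases h' with h' | ⟨h', hl'⟩
  · omega
  · omega
  · omega
  · exact Std.Asymm.asymm _ _ hl hl'

omit [Fintype A] in
theorem IsRep.inj {L : Language A} {rep : ℕ → List A} (h : IsRep L rep) : Function.Injective rep := by
  intro m n hmn
  rcases lt_trichotomy m n with h1 | h1 | h1
  · have := h.mono _ _ h1
    rw [hmn] at this
    exact absurd this (gen_irrefl _)
  · exact h1
  · have := h.mono _ _ h1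
    rw [hmn] at this
    exact absurd this (gen_irrefl _)

omit [Fintype A] in
theorem IsRep.lt {L : Language A} {rep : ℕ → List A} (h : IsRep L rep) {m n : ℕ}
    (hg : Gen (rep m) (rep n)) : m < n := by
  rcases lt_trichotomy m n with h1 | h1 | h1
  · exact h1
  · subst h1; exact absurd hg (gen_irrefl _)
  · exact (gen_asymm hg (h.mono _ _ h1)).elim

omit [Fintype A] in
theorem IsRep.len {L : Language A} {rep : ℕ → List A} (h : IsRep L rep) {m n : ℕ}
    (hmn : m ≤ n) : (rep m).length ≤ (rep n).length := by
  rcases hmn.lt_or_eq with h1 | h1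
  · rcases h.mono _ _ h1 with h2 | h2
    · exact h2.le
    · exact h2.1.le
  · rw [h1]

omit [Fintype A] in
/-- a word lying lexicographically between two words with a common prefix has this prefix -/
theorem sandwich : ∀ (p s s' v : List A), v.length = (p ++ s).length →
    ¬ List.Lex (· < ·) v (p ++ s) → List.Lex (· < ·) v (p ++ s') → ∃ t, v = p ++ t
  | [], _, _, v, _, _, _ => ⟨v, rfl⟩
  | a :: p, s, s', [], hl, _, _ => by simp at hl
  | a :: p, s, s', b :: v, hl, h1, h2 => by
    rw [List.cons_append] at h1 h2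
    have hab : b = a ∧ List.Lex (· < ·) v (p ++ s') := by
      cases h2 with
      | cons h => exact ⟨rfl, h⟩
      | rel h => exact absurd (List.Lex.rel h) h1
    obtain ⟨rfl, h3⟩ := hab
    obtain ⟨t, ht⟩ := sandwich p s s' v (by simpa using hl) (fun h => h1 (List.Lex.cons h)) h3
    exact ⟨t, by rw [ht, List.cons_append]⟩

omit [Fintype A] in
theorem gen_trans {u v w : List A} (h : Gen u v) (h' : Gen v w) : Gen u w := by
  rcases h with h | ⟨h, hl⟩ <;> rcases h' with h' | ⟨h', hl'⟩
  · left; omega
  · left; omega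
  · left; omega
  · right
    refine ⟨h.trans h', ?_⟩
    have h1 : u < v := hl
    have h2 : v < w := hl'
    exact h1.trans h2

omit [Fintype A] in
theorem gen_total (v w : List A) (hne : v ≠ w) : Gen v w ∨ Gen w v := by
  rcases lt_trichotomy v.length w.length with h | h | h
  · exact Or.inl (Or.inl h)
  · rcases lt_trichotomy v w with h1 | h1 | h1
    · exact Or.inl (Or.inr ⟨h, h1⟩)
    · exact absurd h1 hne
    · exact Or.inr (Or.inr ⟨h.symm, h1⟩)
  · exact Or.inr (Or.inl h)

theorem finite_below (w : List A) : {v : List A | Gen v w}.Finite := by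
  refine (List.finite_length_le A w.length).subset ?_
  rintro v (h | h)
  · exact h.le
  · exact h.1.le

/-- The enumeration exists for every infinite language (so the hypothesis `IsRep L rep` of the main
theorem is satisfied by exactly one map `rep` as soon as `L` is infinite). -/
theorem exists_isRep (L : Language A) (hinf : {w : List A | w ∈ L}.Infinite) :
    ∃ rep : ℕ → List A, IsRep L rep := by
  classical
  set ν : List A → ℕ := fun w => {v : List A | Gen v w}.ncard with hν
  have hνlt : ∀ {v w : List A}, Gen v w → ν v < ν w := by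
    intro v w h
    apply Set.ncard_lt_ncard _ (finite_below w)
    refine ⟨fun u hu => gen_trans hu h, fun hsub => ?_⟩
    exact gen_irrefl v (hsub h)
  have hνinj : Function.Injective ν := by
    intro v w h
    by_contra hne
    rcases gen_total v w hne with h1 | h1
    · exact absurd h (hνlt h1).ne
    · exact absurd h (hνlt h1).ne'
  have hνgen : ∀ {v w : List A}, ν v < ν w → Gen v w := by
    intro v w h
    have hne : v ≠ w := fun e => by rw [e] at h; exact lt_irrefl _ h
    rcases gen_total v w hne with h1 | h1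
    · exact h1
    · exact absurd (hνlt h1) (not_lt.2 h.le)
  set S : Set ℕ := ν '' {w : List A | w ∈ L} with hS
  have hSinf : (Set.ofPred fun n => n ∈ S).Infinite := hinf.image hνinj.injOn
  have hmem : ∀ n, ∃ w ∈ L, ν w = Nat.nth (fun n => n ∈ S) n := by
    intro n
    obtain ⟨w, hw, hwn⟩ := Nat.nth_mem_of_infinite hSinf n
    exact ⟨w, hw, hwn⟩
  choose rep hrep hrepν using hmem
  refine ⟨rep, hrep, ?_, ?_⟩
  · intro w hw
    have h1 : ν w ∈ Set.range (Nat.nth (fun n => n ∈ S)) := by
      rw [Nat.range_nth_of_infinite hSinf]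
      exact ⟨w, hw, rfl⟩
    obtain ⟨n, hn⟩ := h1
    exact ⟨n, hνinj (by rw [hrepν, hn])⟩
  · intro m n hmn
    apply hνgen
    rw [hrepν, hrepν]
    exact Nat.nth_strictMono hSinf hmn

/-! ### automata -/

/-- powers of a word -/
def pw (y : List A) : ℕ → List A
  | 0 => []
  | k + 1 => y ++ pw y k

omit [Fintype A] [LinearOrder A] in
theorem pw_length (y : List A) (k : ℕ) : (pw y k).length = k * y.length := by
  induction k with
  | zero => simp [pw]
  | succ k ih => simp [pw, ih]; ring

omit [Fintype A] [LinearOrder A] in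
theorem evalFrom_pw {σ : Type} (M : DFA A σ) (q : σ) (y : List A) (h : M.evalFrom q y = q) (k : ℕ) :
    M.evalFrom q (pw y k) = q := by
  induction k with
  | zero => rfl
  | succ k ih => rw [pw, DFA.evalFrom_of_append, h, ih]

/-- the product automaton -/
def prodDFA {σ τ : Type} (M : DFA A σ) (N : DFA A τ) : DFA A (σ × τ) where
  step q a := (M.step q.1 a, N.step q.2 a)
  start := (M.start, N.start)
  accept := ∅

omit [Fintype A] [LinearOrder A] in
theorem prodDFA_evalFrom {σ τ : Type} (M : DFA A σ) (N : DFA A τ) (w : List A) :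
    ∀ q : σ × τ, (prodDFA M N).evalFrom q w = (M.evalFrom q.1 w, N.evalFrom q.2 w) := by
  induction w with
  | nil => intro q; rfl
  | cons a w ih =>
    intro q
    have := ih (M.step q.1 a, N.step q.2 a)
    exact this

omit [Fintype A] [LinearOrder A] in
/-- pumping both automata simultaneously -/
theorem pump {σ τ : Type} [Fintype σ] [Fintype τ] (M : DFA A σ) (N : DFA A τ) (p : List A)
    (hp : Fintype.card (σ × τ) ≤ p.length) :
    ∃ x y z : List A, y ≠ [] ∧ ∀ (k : ℕ) (s : List A),
      ((x ++ pw y k ++ z) ++ s ∈ M.accepts ↔ p ++ s ∈ M.accepts) ∧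
      ((x ++ pw y k ++ z) ++ s ∈ N.accepts ↔ p ++ s ∈ N.accepts) := by
  obtain ⟨q, x, y, z, hxyz, _, hy, h1, h2, h3⟩ :=
    (prodDFA M N).evalFrom_split (s := (M.start, N.start)) hp rfl
  refine ⟨x, y, z, hy, fun k s => ?_⟩
  have key : ∀ k, (prodDFA M N).evalFrom (M.start, N.start) (x ++ pw y k ++ z) =
      (prodDFA M N).evalFrom (M.start, N.start) p := by
    intro k
    rw [DFA.evalFrom_of_append, DFA.evalFrom_of_append, h1, evalFrom_pw _ _ _ h2, h3]
  have hk := key k
  rw [prodDFA_evalFrom, prodDFA_evalFrom] at hk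
  have hM : M.evalFrom M.start (x ++ pw y k ++ z) = M.evalFrom M.start p := congrArg Prod.fst hk
  have hN : N.evalFrom N.start (x ++ pw y k ++ z) = N.evalFrom N.start p := congrArg Prod.snd hk
  constructor
  · rw [DFA.mem_accepts, DFA.mem_accepts, DFA.eval, DFA.evalFrom_of_append M _ _ s,
      DFA.evalFrom_of_append M _ p s, hM]
  · rw [DFA.mem_accepts, DFA.mem_accepts, DFA.eval, DFA.evalFrom_of_append N _ _ s,
      DFA.evalFrom_of_append N _ p s, hN]

/-! ### the number of representations of given length is bounded -/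

/-- the set of representations of `X` -/
def reps (rep : ℕ → List A) (X : Set ℕ) : Language A := {w | ∃ n ∈ X, rep n = w}

omit [LinearOrder A] in
theorem card_words (m : ℕ) [DecidableEq (List A)] :
    ((Finset.univ : Finset (List.Vector A m)).image (fun v => v.1)).card ≤ Fintype.card A ^ m := by
  refine le_trans Finset.card_image_le ?_
  rw [Finset.card_univ, card_vector]

theorem key {L : Language A} {rep : ℕ → List A} (hrep : IsRep L rep) {X : Set ℕ}
    (hgap : ∀ D : ℕ, ∃ K : ℕ, ∀ a ∈ X, ∀ b ∈ X, K ≤ a → a < b → a + D < b)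
    {σ τ : Type} [Fintype σ] [Fintype τ] (M : DFA A σ) (N : DFA A τ)
    (hM : M.accepts = reps rep X) (hN : N.accepts = L) (p s s' : List A)
    (hp : Fintype.card (σ × τ) ≤ p.length) (hl : s.length = s'.length)
    (hs : p ++ s ∈ reps rep X) (hs' : p ++ s' ∈ reps rep X) (hlex : List.Lex (· < ·) s s') :
    False := by
  obtain ⟨x, y, z, hy, hpump⟩ := pump M N p hp
  rw [hM, hN] at hpump
  have hin : ∀ k, ∃ a ∈ X, rep a = (x ++ pw y k ++ z) ++ s := fun k => ((hpump k s).1).2 hs
  have hin' : ∀ k, ∃ a ∈ X, rep a = (x ++ pw y k ++ z) ++ s' := fun k => ((hpump k s').1).2 hs'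
  choose a ha harep using hin
  choose b hb hbrep using hin'
  have hmono : StrictMono a := by
    refine strictMono_nat_of_lt_succ fun k => ?_
    apply hrep.lt
    left
    rw [harep, harep]
    have hy1 : 1 ≤ y.length := List.length_pos_iff.2 hy
    simp only [List.length_append, pw_length]
    have : (k + 1) * y.length = k * y.length + y.length := by ring
    omega
  obtain ⟨K, hK⟩ := hgap (Fintype.card A ^ s.length)
  have hab : a K < b K := by
    apply hrep.lt
    right
    rw [harep, hbrep]
    refine ⟨by simp [hl], ?_⟩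
    exact List.Lex.append_left _ hlex _
  have h1 := hK (a K) (ha K) (b K) (hb K) (hmono.le_apply) hab
  -- the words between
  obtain ⟨P, hP⟩ : ∃ P : List A, P = x ++ pw y K ++ z := ⟨_, rfl⟩
  have haP : rep (a K) = P ++ s := by rw [hP]; exact harep K
  have hbP : rep (b K) = P ++ s' := by rw [hP]; exact hbrep K
  classical
  have h2 : (Finset.Ico (a K) (b K)).card ≤
      ((Finset.univ : Finset (List.Vector A s.length)).image (fun v => v.1)).card := by
    have hword : ∀ c ∈ Finset.Ico (a K) (b K), ∃ t : List A, t.length = s.length ∧ rep c = P ++ t := by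
      intro c hc
      rw [Finset.mem_Ico] at hc
      have hlen1 : (P ++ s).length ≤ (rep c).length := by
        rw [← haP]; exact hrep.len hc.1
      have hlen2 : (rep c).length ≤ (P ++ s').length := by
        rw [← hbP]; exact hrep.len hc.2.le
      have e1 : (P ++ s).length = P.length + s.length := List.length_append
      have e2 : (P ++ s').length = P.length + s'.length := List.length_append
      have hlen : (rep c).length = (P ++ s).length := by omega
      have hgc := hrep.mono _ _ hc.2
      rw [hbP] at hgc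
      have hlexc : List.Lex (· < ·) (rep c) (P ++ s') := by
        rcases hgc with h | h
        · exfalso
          omega
        · exact h.2
      have hnot : ¬ List.Lex (· < ·) (rep c) (P ++ s) := by
        intro h
        have : c < a K := by
          apply hrep.lt
          right
          rw [haP]
          exact ⟨hlen, h⟩
        omega
      obtain ⟨t, ht⟩ := sandwich P s s' (rep c) hlen hnot hlexc
      refine ⟨t, ?_, ht⟩
      rw [ht] at hlen
      simpa using hlen
    refine Finset.card_le_card_of_injOn (fun c => (rep c).drop P.length) ?_ ?_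
    · intro c hc
      obtain ⟨t, ht, hct⟩ := hword c hc
      simp only [Finset.coe_image, Set.mem_image, Finset.coe_univ, Set.mem_univ, true_and]
      refine ⟨⟨t, ht⟩, ?_⟩
      simp [hct]
    · intro c hc c' hc' hcc
      obtain ⟨t, ht, hct⟩ := hword c hc
      obtain ⟨t', ht', hct'⟩ := hword c' hc'
      simp only [hct, hct', List.drop_left] at hcc
      apply hrep.inj
      rw [hct, hct', hcc]
  have h3 := h2.trans (card_words s.length)
  rw [Nat.card_Ico] at h3
  omega

theorem slender {L : Language A} {rep : ℕ → List A} (hrep : IsRep L rep) {X : Set ℕ}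
    (hgap : ∀ D : ℕ, ∃ K : ℕ, ∀ a ∈ X, ∀ b ∈ X, K ≤ a → a < b → a + D < b)
    {σ τ : Type} [Fintype σ] [Fintype τ] (M : DFA A σ) (N : DFA A τ)
    (hM : M.accepts = reps rep X) (hN : N.accepts = L) :
    ∃ B : ℕ, ∀ (n : ℕ) (J : Finset ℕ), (∀ j ∈ J, j ∈ X ∧ (rep j).length ≤ n) →
      J.card ≤ (n + 1) * B := by
  classical
  set Q := Fintype.card (σ × τ) with hQ
  have hfin : {l : List A | l.length ≤ Q}.Finite := List.finite_length_le A Q
  refine ⟨hfin.toFinset.card, fun n J hJ => ?_⟩
  have : J.card ≤ (Finset.range (n + 1) ×ˢ hfin.toFinset).card := by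
    refine Finset.card_le_card_of_injOn (fun j => ((rep j).length, (rep j).take Q)) ?_ ?_
    · intro j hj
      have := (hJ j hj).2
      simp only [Finset.coe_product, Set.mem_prod, Finset.mem_coe, Finset.mem_range,
        Set.Finite.mem_toFinset, Set.mem_ofPred_eq, List.length_take]
      omega
    · intro j hj j' hj' hjj
      simp only [Prod.mk.injEq] at hjj
      obtain ⟨hl, ht⟩ := hjj
      by_contra hne
      have hrne : rep j ≠ rep j' := fun h => hne (hrep.inj h)
      have hs : (rep j).take Q ++ (rep j).drop Q = rep j := List.take_append_drop Q _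
      have hs' : (rep j).take Q ++ (rep j').drop Q = rep j' := by
        rw [ht]; exact List.take_append_drop Q _
      have hdne : (rep j).drop Q ≠ (rep j').drop Q := by
        intro h
        apply hrne
        rw [← hs, ← hs', h]
      have hlong : Q ≤ (rep j).length := by
        by_contra hlt
        apply hdne
        rw [List.drop_eq_nil_of_le (by omega), List.drop_eq_nil_of_le (by omega)]
      have hpl : Fintype.card (σ × τ) ≤ ((rep j).take Q).length := by
        rw [List.length_take]; omega
      have hdl : ((rep j).drop Q).length = ((rep j').drop Q).length := by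
        rw [List.length_drop, List.length_drop, hl]
      have hj1 : (rep j).take Q ++ (rep j).drop Q ∈ reps rep X := ⟨j, (hJ j hj).1, hs.symm⟩
      have hj2 : (rep j).take Q ++ (rep j').drop Q ∈ reps rep X := ⟨j', (hJ j' hj').1, hs'.symm⟩
      by_cases h1 : List.Lex (· < ·) ((rep j).drop Q) ((rep j').drop Q)
      · exact key hrep hgap M N hM hN _ _ _ hpl hdl hj1 hj2 h1
      · by_cases h2 : List.Lex (· < ·) ((rep j').drop Q) ((rep j).drop Q)
        · exact key hrep hgap M N hM hN _ _ _ hpl hdl.symm hj2 hj1 h2
        · exact hdne (Std.Trichotomous.trichotomous (r := List.Lex (· < ·)) _ _ h1 h2)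
  rw [Finset.card_product, Finset.card_range] at this
  exact this

/-! ### polynomials -/

theorem tendsto_diff (P : ℚ[X]) (hdeg : 2 ≤ P.natDegree)
    (hP : ∀ n : ℕ, ∃ m : ℕ, P.eval (n : ℚ) = (m : ℚ)) (D : ℕ) :
    ∃ n₀ : ℕ, ∀ n : ℕ, n₀ ≤ n → P.eval (n : ℚ) + D < P.eval ((n + 1 : ℕ) : ℚ) := by
  set Q : ℚ[X] := P.comp (X + 1) - P with hQ
  have hQe : ∀ n : ℕ, Q.eval (n : ℚ) = P.eval ((n + 1 : ℕ) : ℚ) - P.eval (n : ℚ) := by
    intro n
    simp [hQ, eval_comp]
  by_cases h0 : Q.degree ≤ 0
  · exfalso
    obtain ⟨c, hc⟩ : ∃ c : ℚ, Q = C c := ⟨Q.coeff 0, eq_C_of_degree_le_zero h0⟩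
    have hlin : ∀ n : ℕ, P.eval (n : ℚ) = P.eval 0 + c * n := by
      intro n
      induction n with
      | zero => simp
      | succ n ih =>
        have := hQe n
        rw [hc, eval_C, ih] at this
        push_cast at this ⊢
        linarith
    have : P = C c * X + C (P.eval 0) := by
      apply Polynomial.eq_of_infinite_eval_eq
      refine Set.Infinite.mono (s := Set.range (fun n : ℕ => (n : ℚ))) ?_
        (Set.infinite_range_of_injective Nat.cast_injective)
      rintro _ ⟨n, rfl⟩
      show eval (n : ℚ) P = eval (n : ℚ) (C c * X + C (P.eval 0))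
      rw [hlin n]
      simp
      ring
    have h1 : P.natDegree ≤ 1 := by rw [this]; exact natDegree_linear_le
    omega
  · have h0' : 0 < Q.degree := not_le.1 h0
    have hcast : Tendsto (fun n : ℕ => (n : ℚ)) atTop atTop := tendsto_natCast_atTop_atTop
    rcases le_total 0 Q.leadingCoeff with hl | hl
    · have ht := (Q.tendsto_atTop_of_leadingCoeff_nonneg h0' hl).comp hcast
      obtain ⟨n₀, hn₀⟩ := (tendsto_atTop.1 ht ((D : ℚ) + 1)).exists_forall_of_atTop
      refine ⟨n₀, fun n hn => ?_⟩
      have := hn₀ n hn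
      simp only [Function.comp] at this
      rw [hQe] at this
      linarith
    · exfalso
      have ht := (Q.tendsto_atBot_of_leadingCoeff_nonpos h0' hl).comp hcast
      obtain ⟨n₀, hn₀⟩ := (tendsto_atBot.1 ht (-1)).exists_forall_of_atTop
      choose p hp using hP
      have hdec : ∀ k : ℕ, (p (n₀ + k) : ℚ) ≤ p n₀ - k := by
        intro k
        induction k with
        | zero => simp
        | succ k ih =>
          have := hn₀ (n₀ + k) (by omega)
          simp only [Function.comp] at this
          rw [hQe, hp, hp] at this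
          have e : n₀ + (k + 1) = n₀ + k + 1 := by ring
          rw [e]
          push_cast
          linarith
      have h1 := hdec (p n₀ + 1)
      have h2 : (0 : ℚ) ≤ (p (n₀ + (p n₀ + 1)) : ℚ) := Nat.cast_nonneg _
      push_cast at h1
      linarith

theorem gap (P : ℚ[X]) (hdeg : 2 ≤ P.natDegree)
    (hP : ∀ n : ℕ, ∃ m : ℕ, P.eval (n : ℚ) = (m : ℚ)) (D : ℕ) :
    ∃ K : ℕ, ∀ a ∈ values P, ∀ b ∈ values P, K ≤ a → a < b → a + D < b := by
  obtain ⟨n₀, hn₀⟩ := tendsto_diff P hdeg hP D
  choose p hp using hP
  have hstep : ∀ n, n₀ ≤ n → p n + D < p (n + 1) := by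
    intro n hn
    have := hn₀ n hn
    rw [hp, hp] at this
    exact_mod_cast this
  have hmono : ∀ n m, n₀ ≤ n → n ≤ m → p n ≤ p m := by
    intro n m hn hnm
    induction m, hnm using Nat.le_induction with
    | base => exact le_rfl
    | succ m hm ih =>
      have := hstep m (hn.trans hm)
      omega
  have hval : ∀ a ∈ values P, ∃ n, p n = a := by
    rintro a ⟨n, hn⟩
    rw [hp n] at hn
    exact ⟨n, by exact_mod_cast hn⟩
  refine ⟨∑ i ∈ Finset.range n₀, p i + 1, fun a ha b hb hKa hab => ?_⟩
  obtain ⟨u, rfl⟩ := hval a ha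
  obtain ⟨v, rfl⟩ := hval b hb
  have hbig : ∀ w, ∑ i ∈ Finset.range n₀, p i + 1 ≤ p w → n₀ ≤ w := by
    intro w hw
    by_contra hlt
    have : p w ≤ ∑ i ∈ Finset.range n₀, p i :=
      Finset.single_le_sum (f := p) (fun i _ => Nat.zero_le _)
        (Finset.mem_range.2 (not_le.1 hlt))
    omega
  have hu := hbig u hKa
  have hv := hbig v (hKa.trans hab.le)
  have huv : u < v := by
    by_contra hle
    have := hmono v u hv (not_lt.1 hle)
    omega
  have h1 := hstep u hu
  have h2 := hmono (u + 1) v (by omega) huv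
  omega

/-- **Main theorem.** Let `(L, A, <)` be an abstract numeration system, `rep` its representation
map and let `P` be a rational polynomial of degree at least two with `P(ℕ) ⊆ ℕ`. If `P(ℕ)` is
recognisable in the numeration system, then the number of words of length `n` in `L` is
`O(n ^ k)` for some `k`. -/
theorem result (L : Language A) (hreg : L.IsRegular) (rep : ℕ → List A) (hrep : IsRep L rep)
    (P : ℚ[X]) (hdeg : 2 ≤ P.natDegree)
    (hP : ∀ n : ℕ, ∃ m : ℕ, P.eval (n : ℚ) = (m : ℚ))
    (hrec : (reps rep (values P)).IsRegular) :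
    ∃ k : ℕ, (fun n : ℕ => (({w : List A | w ∈ L ∧ w.length = n}.ncard : ℕ) : ℝ)) =O[atTop]
      (fun n : ℕ => (n : ℝ) ^ k) := by
  obtain ⟨σ, _, M, hM⟩ := hrec
  obtain ⟨τ, _, N, hN⟩ := hreg
  obtain ⟨B, hB⟩ := slender hrep (gap P hdeg hP) M N hM hN
  obtain ⟨n₀, hn₀⟩ := tendsto_diff P hdeg hP 0
  choose p hp using hP
  have hstep : ∀ n, n₀ ≤ n → p n < p (n + 1) := by
    intro n hn
    have := hn₀ n hn
    rw [hp, hp] at this
    simp only [Nat.cast_zero, add_zero] at this
    exact_mod_cast this
  have hlt : ∀ n m, n₀ ≤ n → n < m → p n < p m := by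
    intro n m hn hnm
    induction m, hnm using Nat.le_induction with
    | base => exact hstep n hn
    | succ m hm ih =>
      have := hstep m (by omega)
      omega
  have hle : ∀ n m, n₀ ≤ n → n ≤ m → p n ≤ p m := by
    intro n m hn hnm
    rcases hnm.lt_or_eq with h | h
    · exact (hlt n m hn h).le
    · rw [h]
  have hcount : ∀ n : ℕ, {w : List A | w ∈ L ∧ w.length = n}.ncard ≤ p (n₀ + (n + 1) * B) := by
    intro n
    classical
    obtain ⟨j, hj0, hj1, hj⟩ : ∃ j, n₀ ≤ j ∧ j ≤ n₀ + (n + 1) * B ∧ n < (rep (p j)).length := by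
      by_contra hcon
      push Not at hcon
      have h1 := hB n ((Finset.Icc n₀ (n₀ + (n + 1) * B)).image p) (by
        intro i hi
        rw [Finset.mem_image] at hi
        obtain ⟨j, hj, rfl⟩ := hi
        rw [Finset.mem_Icc] at hj
        exact ⟨⟨j, hp j⟩, hcon j hj.1 hj.2⟩)
      rw [Finset.card_image_of_injOn, Nat.card_Icc] at h1
      · omega
      · intro i hi j hj hij
        simp only [Finset.coe_Icc, Set.mem_Icc] at hi hj
        rcases lt_trichotomy i j with h | h | h
        · have := hlt i j hi.1 h; omega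
        · exact h
        · have := hlt j i hj.1 h; omega
    refine le_trans ?_ (hle j _ hj0 hj1)
    have hsub : {w : List A | w ∈ L ∧ w.length = n} ⊆ rep '' (Finset.range (p j) : Set ℕ) := by
      rintro w ⟨hw, hwn⟩
      obtain ⟨i, rfl⟩ := hrep.surj w hw
      refine ⟨i, ?_, rfl⟩
      have : i < p j := by
        apply hrep.lt
        left
        omega
      simpa using this
    refine (Set.ncard_le_ncard hsub ((Finset.finite_toSet _).image _)).trans ?_
    refine (Set.ncard_image_le (Finset.finite_toSet _)).trans ?_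
    rw [Set.ncard_coe_finset, Finset.card_range]
  -- polynomial bound
  set R : ℝ[X] := (P.map (algebraMap ℚ ℝ)).comp (C (B : ℝ) * X + C ((n₀ : ℝ) + B)) with hR
  have hReval : ∀ n : ℕ, R.eval (n : ℝ) = (p (n₀ + (n + 1) * B) : ℝ) := by
    intro n
    have e1 : (C (B : ℝ) * X + C ((n₀ : ℝ) + B)).eval (n : ℝ) = ((n₀ + (n + 1) * B : ℕ) : ℝ) := by
      simp
      ring
    rw [hR, eval_comp, e1]
    have e2 : ((n₀ + (n + 1) * B : ℕ) : ℝ) = algebraMap ℚ ℝ ((n₀ + (n + 1) * B : ℕ) : ℚ) := by
      simp
    rw [e2, eval_map_algebraMap, aeval_algebraMap_apply, coe_aeval_eq_eval, hp]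
    simp
  refine ⟨R.natDegree, ?_⟩
  have h1 : (fun x : ℝ => R.eval x) =O[atTop] (fun x : ℝ => (X ^ R.natDegree : ℝ[X]).eval x) := by
    apply Polynomial.isBigO_atTop_of_degree_le
    rw [degree_X_pow]
    exact degree_le_natDegree
  have h2 := h1.comp_tendsto (tendsto_natCast_atTop_atTop (R := ℝ))
  refine Asymptotics.IsBigO.trans (g := fun n : ℕ => R.eval (n : ℝ)) ?_ ?_
  · refine Asymptotics.isBigO_of_le _ fun n => ?_
    rw [hReval, Real.norm_natCast, Real.norm_natCast]
    exact_mod_cast hcount n
  · simpa [Function.comp_def] using h2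

end Pool.Agent.Results.MP_8c22a7_lc.PolynomialLanguage
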